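import Pool.Agent.MP_66cee2_co.B82.FB2

/-
The one-sided flat bound.
-/

namespace Pool.Agent.MP_66cee2_co.B2L

open MeasureTheory Set Filter Metric Topology Polynomial Pool.Agent.MP_66cee2_co.X
  Pool.Agent.MP_66cee2_co.B
open scoped RealInnerProductSpace

theorem van {d p : ℕ} {H : E d → ℝ} (hint : Integrable H) {B : ℝ}
    (hB : ∀ w, |H w| ≤ B * |‖w‖ ^ 2 - 1| ^ p) : ∃ C : ℝ, ∀ t ∈ Icc (1 : ℝ) 2,
    |(∫ w, (ball (0 : E d) t).indicator (fun _ => (1 : ℝ)) w * H w) -
      ∫ w, (ball (0 : E d) 1).indicator (fun _ => (1 : ℝ)) w * H w| ≤ C * (t - 1) ^ p := by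
  refine ⟨|B| * 3 ^ p * volume.real (ball (0 : E d) 2), ?_⟩
  intro t ht
  have hi : ∀ s : ℝ, Integrable
      (fun w => (ball (0 : E d) s).indicator (fun _ => (1 : ℝ)) w * H w) := by
    intro s
    have h1 : (fun w => (ball (0 : E d) s).indicator (fun _ => (1 : ℝ)) w * H w) =
        (ball (0 : E d) s).indicator H := by
      funext w
      by_cases hw : w ∈ ball (0 : E d) s <;> simp [hw]
    rw [h1]
    exact hint.indicator measurableSet_ball
  rw [← integral_sub (hi t) (hi 1), ← Real.norm_eq_abs]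
  set K : ℝ := |B| * 3 ^ p * (t - 1) ^ p with hK
  have ht0 : 0 ≤ t - 1 := by linarith [ht.1]
  have hK0 : 0 ≤ K := by positivity
  have hb : Integrable ((ball (0 : E d) 2).indicator fun _ => K) := by
    refine (integrable_indicator_iff measurableSet_ball).2 ?_
    exact integrableOn_const (measure_ball_lt_top).ne
  have h2 := norm_integral_le_of_norm_le (f := fun w =>
      (ball (0 : E d) t).indicator (fun _ => (1 : ℝ)) w * H w -
        (ball (0 : E d) 1).indicator (fun _ => (1 : ℝ)) w * H w) hb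
    (Eventually.of_forall fun w => by
      by_cases h1 : w ∈ ball (0 : E d) 1
      · have h2 : w ∈ ball (0 : E d) t := ball_subset_ball ht.1 h1
        rw [indicator_of_mem h1, indicator_of_mem h2, sub_self, norm_zero]
        exact indicator_nonneg (fun _ _ => hK0) w
      · by_cases h2 : w ∈ ball (0 : E d) t
        · have h3 : w ∈ ball (0 : E d) 2 := ball_subset_ball ht.2 h2
          rw [indicator_of_notMem h1, indicator_of_mem h2, indicator_of_mem h3, zero_mul, sub_zero,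
            one_mul, Real.norm_eq_abs]
          rw [mem_ball_zero_iff] at h1 h2
          have h4 : 1 ≤ ‖w‖ := not_lt.1 h1
          have h5 : |‖w‖ ^ 2 - 1| ≤ 3 * (t - 1) := by
            rw [abs_of_nonneg (by nlinarith)]
            nlinarith [ht.2]
          have h6 : |‖w‖ ^ 2 - 1| ^ p ≤ (3 * (t - 1)) ^ p :=
            pow_le_pow_left₀ (abs_nonneg _) h5 p
          refine (hB w).trans ?_
          calc B * |‖w‖ ^ 2 - 1| ^ p ≤ |B| * |‖w‖ ^ 2 - 1| ^ p :=
                mul_le_mul_of_nonneg_right (le_abs_self B) (by positivity)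
            _ ≤ |B| * (3 * (t - 1)) ^ p := by gcongr
            _ = K := by rw [hK, mul_pow]; ring
        · rw [indicator_of_notMem h1, indicator_of_notMem h2, sub_self, norm_zero]
          exact indicator_nonneg (fun _ _ => hK0) w)
  refine h2.trans (le_of_eq ?_)
  rw [integral_indicator measurableSet_ball, setIntegral_const, smul_eq_mul, hK]
  ring

/-- The one-sided bound for a flat function which is the transform of `μ₁ - μ₂`. -/
theorem lp1 {l : ℕ} {H : E (2 * l + 3) → ℝ} {A : ℝ} {μ₁ μ₂ : Measure (E (2 * l + 3))}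
    (hR : Rep H A μ₁ μ₂) (hint : Integrable H) {B : ℝ}
    (hB : ∀ w, |H w| ≤ B * |‖w‖ ^ 2 - 1| ^ (l + 2)) {φ : E (2 * l + 3) → ℝ} (gi : Integrable φ)
    {κ m M : ℝ} {r : ℝ[X]} (hr : r.natDegree ≤ l)
    (hm : ∀ ξ, ct φ ξ ≤ κ * Phi (r.comp (X ^ 2)) ‖ξ‖ + m)
    (hM : ∀ ξ, κ * Phi (r.comp (X ^ 2)) ‖ξ‖ - M ≤ ct φ ξ) :
    ∫ w, φ w * H w ≤ m * μ₁.real univ + M * μ₂.real univ := by
  obtain ⟨f1, f2, -, weak⟩ := hR
  obtain ⟨v, hv, hb⟩ := sBall l
  obtain ⟨C, hC⟩ := van hint hB
  have key : ∀ t : ℝ, 0 < t →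
      ∫ w, (ball (0 : E (2 * l + 3)) t).indicator (fun _ => (1 : ℝ)) w * H w =
        v * (t ^ (2 * l + 3) * (IP μ₁ (rho (l + 1)) t - IP μ₂ (rho (l + 1)) t)) := by
    intro t ht
    rw [weak _ ((integrable_indicator_iff measurableSet_ball).2
      (integrableOn_const measure_ball_lt_top.ne))]
    simp only [hb t ht, integral_const_mul, IP]
    ring
  have hder := sDer l _ μ₁ μ₂ (C / v) (fun t ht => by
    have h := hC t ht
    rw [key t (by linarith [ht.1]), key 1 one_pos, one_pow, one_mul, ← mul_sub, abs_mul,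
      abs_of_pos hv] at h
    rw [div_mul_eq_mul_div, le_div_iff₀' hv]
    exact h) r hr
  obtain ⟨hc, ⟨N, hN⟩, -⟩ := sD1 (r.comp (X ^ 2))
  have i1 : ∀ (μ : Measure (E (2 * l + 3))) [IsFiniteMeasure μ],
      Integrable (fun ξ => κ * Phi (r.comp (X ^ 2)) (‖ξ‖ * 1)) μ := fun μ _ =>
    ((integrable_const N).mono' (hc.comp (continuous_norm.mul_const 1)).aestronglyMeasurable
      (ae_of_all _ fun ξ => hN _)).const_mul κ
  have e1 := integral_mono (RepX.ct_int gi μ₁) ((i1 μ₁).add (integrable_const m)) fun ξ => by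
    simpa only [Pi.add_apply, mul_one] using hm ξ
  have e2 := integral_mono ((i1 μ₂).sub (integrable_const M)) (RepX.ct_int gi μ₂) fun ξ => by
    simpa only [Pi.sub_apply, mul_one] using hM ξ
  rw [integral_add' (i1 μ₁) (integrable_const m), integral_const_mul, integral_const,
    smul_eq_mul] at e1
  rw [integral_sub' (i1 μ₂) (integrable_const M), integral_const_mul, integral_const,
    smul_eq_mul] at e2
  unfold IP at hder
  rw [weak _ gi]
  rw [hder] at e1
  linarith

/-- the correlation with a kernel on pairs. -/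
noncomputable def HK {d : ℕ} (Y : Set (E d)) (k : E d × E d → ℝ) (w : E d) : ℝ :=
  ∫ x, (Y ×ˢ Y).indicator k (x, x + w)

section

variable {d : ℕ} {Y : Set (E d)} {k : E d × E d → ℝ}

theorem hk_unfold (hY : MeasurableSet Y) (hb : Bornology.IsBounded Y) (hk : Measurable k) {D : ℝ}
    (hD : ∀ p, |k p| ≤ D) {φ : E d → ℝ} (hφ : Continuous φ) :
    Integrable (fun p : E d × E d => φ (p.2 - p.1) * k p)
      ((volume.restrict Y).prod (volume.restrict Y)) ∧ Integrable (fun w => φ w * HK Y k w) ∧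
    ∫ w, φ w * HK Y k w = ∫ x in Y, ∫ y in Y, φ (y - x) * k (x, y) := by
  have : IsFiniteMeasure (volume.restrict Y) := isFiniteMeasure_restrict.2 hb.measure_lt_top.ne
  have hint : Integrable (fun p : E d × E d => φ (p.2 - p.1) * k p)
      ((volume.restrict Y).prod (volume.restrict Y)) := by
    obtain ⟨R, hR⟩ := hb.exists_norm_le
    obtain ⟨C, hC⟩ := (isCompact_closedBall (0 : E d) (R + R)).exists_bound_of_continuousOn
      hφ.continuousOn
    have hφm := hφ.measurable
    refine (integrable_const (C * D)).mono' (Measurable.aestronglyMeasurable (by fun_prop)) ?_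
    rw [Measure.prod_restrict]
    filter_upwards [ae_restrict_mem (hY.prod hY)] with p hp
    have h1 := hC (p.2 - p.1) (by
      rw [mem_closedBall_zero_iff]
      exact (norm_sub_le _ _).trans (add_le_add (hR _ hp.2) (hR _ hp.1)))
    rw [norm_mul]
    exact mul_le_mul h1 (hD p) (norm_nonneg _) ((norm_nonneg _).trans h1)
  have e : ∀ w, φ w * HK Y k w = ∫ x, (Y ×ˢ Y).indicator
      (fun p : E d × E d => φ (p.2 - p.1) * k p) (x, x + w) := fun w => by
    rw [HK, ← integral_const_mul]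
    refine integral_congr_ae (ae_of_all _ fun x => ?_)
    by_cases hx : x ∈ Y <;> by_cases hy : x + w ∈ Y <;> simp [hx, hy]
  simp only [e]
  exact ⟨hint, Hkx.unfold_int hY hint⟩

theorem slice_int (hY : MeasurableSet Y) (hb : Bornology.IsBounded Y) (hk : Measurable k) {D : ℝ}
    (hD : ∀ p, |k p| ≤ D) (w : E d) :
    Integrable fun x => (Y ×ˢ Y).indicator k (x, x + w) := by
  have hi : Integrable (Y.indicator fun _ => D) :=
    (integrable_indicator_iff hY).2 (integrableOn_const hb.measure_lt_top.ne)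
  refine hi.mono' ((hk.indicator (hY.prod hY)).comp (by fun_prop)).aestronglyMeasurable
    (ae_of_all _ fun x => ?_)
  have h0 : 0 ≤ D := (abs_nonneg _).trans (hD (x, x))
  by_cases hx : x ∈ Y <;> by_cases hy : x + w ∈ Y <;> simp [hx, hy, h0, hD]

theorem pd_sum {ι : Type} [Fintype ι] (hY : MeasurableSet Y) (hb : Bornology.IsBounded Y)
    {f : ι → E d → ℝ} (hf : ∀ i, Measurable (f i)) {C : ℝ} (hC : ∀ i x, |f i x| ≤ C) :
    (Measurable fun p : E d × E d => ∑ i, f i p.1 * f i p.2) ∧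
    (∃ D, ∀ p : E d × E d, |∑ i, f i p.1 * f i p.2| ≤ D) ∧
    PD (HK Y fun p => ∑ i, f i p.1 * f i p.2) (∫ x in Y, ∑ i, f i x ^ 2) := by
  have : IsFiniteMeasure (volume.restrict Y) := isFiniteMeasure_restrict.2 hb.measure_lt_top.ne
  have hk : Measurable fun p : E d × E d => ∑ i, f i p.1 * f i p.2 := by fun_prop
  have hD : ∀ p : E d × E d, |∑ i, f i p.1 * f i p.2| ≤ ∑ _i : ι, C * C := fun p =>
    (Finset.abs_sum_le_sum_abs _ _).trans (Finset.sum_le_sum fun i _ => by
      rw [abs_mul]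
      exact mul_le_mul (hC _ _) (hC _ _) (abs_nonneg _) ((abs_nonneg _).trans (hC i p.1)))
  refine ⟨hk, ⟨_, hD⟩, ?_, fun w => ?_, fun w => ?_, fun ξ => ?_⟩
  · simpa only [one_mul] using (hk_unfold hY hb hk hD (φ := fun _ => 1) continuous_const).2.1
  · have ia : Integrable (Y.indicator fun x => ∑ i, f i x ^ 2) := by
      refine (integrable_indicator_iff hY).2 (H37.intg_bd _ (by fun_prop) (∑ _i : ι, C * C)
        fun x => ?_)
      simpa only [sq] using hD (x, x)
    have ib := ia.comp_add_right w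
    have h := norm_integral_le_of_norm_le (f := fun x => (Y ×ˢ Y).indicator
        (fun p : E d × E d => ∑ i, f i p.1 * f i p.2) (x, x + w))
      ((ia.add ib).div_const 2) (ae_of_all _ fun x => by
        have n1 : 0 ≤ ∑ i, f i x ^ 2 := Finset.sum_nonneg fun i _ => sq_nonneg _
        have n2 : 0 ≤ ∑ i, f i (x + w) ^ 2 := Finset.sum_nonneg fun i _ => sq_nonneg _
        by_cases hx : x ∈ Y <;> by_cases hy : x + w ∈ Y
        · rw [indicator_of_mem (mk_mem_prod hx hy), Pi.add_apply, indicator_of_mem hx,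
            indicator_of_mem hy, ← Finset.sum_add_distrib, Finset.sum_div, Real.norm_eq_abs]
          refine (Finset.abs_sum_le_sum_abs _ _).trans (Finset.sum_le_sum fun i _ => ?_)
          exact abs_le.2 ⟨by nlinarith [sq_nonneg (f i x + f i (x + w))],
            by nlinarith [sq_nonneg (f i x - f i (x + w))]⟩
        all_goals simp [hx, hy]
        all_goals positivity)
    rw [integral_div, integral_add' ia ib, integral_add_right_eq_self
      (Y.indicator fun x => ∑ i, f i x ^ 2) w, integral_indicator hY] at h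
    rw [HK, ← Real.norm_eq_abs]
    linarith
  · unfold HK
    rw [← integral_add_right_eq_self _ w]
    refine integral_congr_ae (ae_of_all _ fun x => ?_)
    simp only [add_neg_cancel_right]
    by_cases hx : x ∈ Y <;> by_cases hy : x + w ∈ Y <;> simp [hx, hy, mul_comm]
  · obtain ⟨h1, -, h3⟩ := hk_unfold hY hb hk hD (φ := fun w => Real.cos ⟪ξ, w⟫) (by fun_prop)
    have e : ct (HK Y fun p => ∑ i, f i p.1 * f i p.2) ξ =
        ∫ w, Real.cos ⟪ξ, w⟫ * HK Y (fun p => ∑ i, f i p.1 * f i p.2) w := by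
      unfold ct
      exact integral_congr_ae (Eventually.of_forall fun w => mul_comm _ _)
    rw [e, h3, ← integral_prod _ h1]
    have ic : ∀ i, Integrable (fun x => f i x * Real.cos ⟪ξ, x⟫) (volume.restrict Y) := fun i =>
      H37.intg_bd _ (by fun_prop) C fun x => by
        rw [abs_mul]
        exact (mul_le_of_le_one_right (abs_nonneg _) (Real.abs_cos_le_one _)).trans (hC i x)
    have is : ∀ i, Integrable (fun x => f i x * Real.sin ⟪ξ, x⟫) (volume.restrict Y) := fun i =>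
      H37.intg_bd _ (by fun_prop) C fun x => by
        rw [abs_mul]
        exact (mul_le_of_le_one_right (abs_nonneg _) (Real.abs_sin_le_one _)).trans (hC i x)
    have e2 : ∀ p : E d × E d, Real.cos ⟪ξ, p.2 - p.1⟫ * ∑ i, f i p.1 * f i p.2 =
        ∑ i, (f i p.1 * Real.cos ⟪ξ, p.1⟫ * (f i p.2 * Real.cos ⟪ξ, p.2⟫) +
          f i p.1 * Real.sin ⟪ξ, p.1⟫ * (f i p.2 * Real.sin ⟪ξ, p.2⟫)) := fun p => by
      rw [inner_sub_right, Real.cos_sub, Finset.mul_sum]
      exact Finset.sum_congr rfl fun i _ => by ring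
    simp only [e2]
    have ij : ∀ i, Integrable (fun p : E d × E d =>
        f i p.1 * Real.cos ⟪ξ, p.1⟫ * (f i p.2 * Real.cos ⟪ξ, p.2⟫) +
          f i p.1 * Real.sin ⟪ξ, p.1⟫ * (f i p.2 * Real.sin ⟪ξ, p.2⟫))
        ((volume.restrict Y).prod (volume.restrict Y)) := fun i =>
      ((ic i).mul_prod (ic i)).add ((is i).mul_prod (is i))
    rw [integral_finsetSum _ fun i _ => ij i]
    refine Finset.sum_nonneg fun i _ => ?_
    rw [integral_add ((ic i).mul_prod (ic i)) ((is i).mul_prod (is i)),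
      integral_prod_mul (fun x => f i x * Real.cos ⟪ξ, x⟫) (fun x => f i x * Real.cos ⟪ξ, x⟫),
      integral_prod_mul (fun x => f i x * Real.sin ⟪ξ, x⟫) (fun x => f i x * Real.sin ⟪ξ, x⟫)]
    exact add_nonneg (mul_self_nonneg _) (mul_self_nonneg _)

end

/-- The one-sided bound for a flat kernel of finite rank. -/
theorem lp2 {l : ℕ} {ι τ : Type} [Fintype ι] [Fintype τ] {Y : Set (E (2 * l + 3))}
    (hY : MeasurableSet Y) (hb : Bornology.IsBounded Y) {f : ι → E (2 * l + 3) → ℝ}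
    {g : τ → E (2 * l + 3) → ℝ} (hf : ∀ i, Measurable (f i)) (hg : ∀ j, Measurable (g j))
    {C : ℝ} (hfC : ∀ i x, |f i x| ≤ C) (hgC : ∀ j x, |g j x| ≤ C) {B : ℝ}
    (hB : ∀ x ∈ Y, ∀ y ∈ Y, |∑ i, f i x * f i y - ∑ j, g j x * g j y| ≤
      B * |‖x - y‖ ^ 2 - 1| ^ (l + 2))
    {φ : E (2 * l + 3) → ℝ} (hφ : Continuous φ) (gi : Integrable φ)
    {κ m M : ℝ} (hm0 : 0 ≤ m) (hM0 : 0 ≤ M) {r : ℝ[X]} (hr : r.natDegree ≤ l)
    (hm : ∀ ξ, ct φ ξ ≤ κ * Phi (r.comp (X ^ 2)) ‖ξ‖ + m)
    (hM : ∀ ξ, κ * Phi (r.comp (X ^ 2)) ‖ξ‖ - M ≤ ct φ ξ) :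
    ∫ x in Y, ∫ y in Y, φ (y - x) * (∑ i, f i x * f i y - ∑ j, g j x * g j y) ≤
      m * (∫ x in Y, ∑ i, f i x ^ 2) + M * ∫ x in Y, ∑ j, g j x ^ 2 := by
  obtain ⟨m1, ⟨D1, b1⟩, p1⟩ := pd_sum hY hb hf hfC
  obtain ⟨m2, ⟨D2, b2⟩, p2⟩ := pd_sum hY hb hg hgC
  obtain ⟨μ₁, r1⟩ := sBo _ _ _ p1
  obtain ⟨μ₂, r2⟩ := sBo _ _ _ p2
  have b3 : ∀ p : E (2 * l + 3) × E (2 * l + 3),
      |∑ i, f i p.1 * f i p.2 - ∑ j, g j p.1 * g j p.2| ≤ D1 + D2 := fun p =>
    (abs_sub _ _).trans (add_le_add (b1 p) (b2 p))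
  have m3 : Measurable fun p : E (2 * l + 3) × E (2 * l + 3) =>
      ∑ i, f i p.1 * f i p.2 - ∑ j, g j p.1 * g j p.2 := m1.sub m2
  have e : ∀ w, HK Y (fun p => ∑ i, f i p.1 * f i p.2 - ∑ j, g j p.1 * g j p.2) w =
      HK Y (fun p => ∑ i, f i p.1 * f i p.2) w - HK Y (fun p => ∑ j, g j p.1 * g j p.2) w := by
    intro w
    unfold HK
    rw [← integral_sub (slice_int hY hb m1 b1 w) (slice_int hY hb m2 b2 w)]
    refine integral_congr_ae (ae_of_all _ fun x => ?_)
    by_cases hx : x ∈ Y <;> by_cases hy : x + w ∈ Y <;> simp [hx, hy]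
  have hR : Rep (HK Y fun p => ∑ i, f i p.1 * f i p.2 - ∑ j, g j p.1 * g j p.2)
      (μ₁.real univ + μ₂.real univ) μ₁ μ₂ := by
    refine ⟨r1.fin₁, r2.fin₁, le_rfl, fun ψ hψ => ?_⟩
    have w1 := r1.weak ψ hψ
    have w2 := r2.weak ψ hψ
    rw [integral_zero_measure, sub_zero] at w1 w2
    simp only [e, mul_sub]
    rw [integral_sub (RepX.mul_int hψ p1) (RepX.mul_int hψ p2), w1, w2]
  have hint : Integrable (HK Y fun p => ∑ i, f i p.1 * f i p.2 - ∑ j, g j p.1 * g j p.2) := by
    simpa only [one_mul] using (hk_unfold hY hb m3 b3 (φ := fun _ => 1) continuous_const).2.1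
  have hv : ∀ w, |HK Y (fun p => ∑ i, f i p.1 * f i p.2 - ∑ j, g j p.1 * g j p.2) w| ≤
      |B| * volume.real Y * |‖w‖ ^ 2 - 1| ^ (l + 2) := fun w => by
    have hi : Integrable (Y.indicator fun _ => |B| * |‖w‖ ^ 2 - 1| ^ (l + 2)) :=
      (integrable_indicator_iff hY).2 (integrableOn_const hb.measure_lt_top.ne)
    have h := norm_integral_le_of_norm_le (f := fun x => (Y ×ˢ Y).indicator
        (fun p : E (2 * l + 3) × E (2 * l + 3) =>
          ∑ i, f i p.1 * f i p.2 - ∑ j, g j p.1 * g j p.2) (x, x + w)) hi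
      (ae_of_all _ fun x => by
        by_cases hx : x ∈ Y <;> by_cases hy : x + w ∈ Y
        · rw [indicator_of_mem (mk_mem_prod hx hy), indicator_of_mem hx, Real.norm_eq_abs]
          have h3 := hB x hx (x + w) hy
          rw [show x - (x + w) = -w by abel, norm_neg] at h3
          exact h3.trans (mul_le_mul_of_nonneg_right (le_abs_self B) (by positivity))
        all_goals simp [hx, hy]
        all_goals positivity)
    rw [integral_indicator hY, setIntegral_const, smul_eq_mul] at h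
    rw [HK, ← Real.norm_eq_abs]
    exact h.trans_eq (by ring)
  have h := lp1 hR hint hv gi hr hm hM
  rw [(hk_unfold hY hb m3 b3 hφ).2.2] at h
  have a1 := r1.mass
  have a2 := r2.mass
  rw [measureReal_zero_apply, add_zero] at a1 a2
  exact h.trans (add_le_add (mul_le_mul_of_nonneg_left a1 hm0) (mul_le_mul_of_nonneg_left a2 hM0))

end Pool.Agent.MP_66cee2_co.B2L
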