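import Pool.Agent.MP_66cee2_co.B2L.LP
import Pool.Agent.MP_66cee2_co.B.Gauss

/-
The flat bounds for a Gaussian test function.
-/

namespace Pool.Agent.MP_66cee2_co.B2L

open MeasureTheory Set Filter Metric Topology Polynomial Pool.Agent.MP_66cee2_co.X
  Pool.Agent.MP_66cee2_co.B

/-- one-sided bound, Gaussian test function. -/
theorem lpG1 {l : ℕ} {ι τ : Type} [Fintype ι] [Fintype τ] {Y : Set (E (2 * l + 3))}
    (hY : MeasurableSet Y) (hb : Bornology.IsBounded Y) {f : ι → E (2 * l + 3) → ℝ}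
    {g : τ → E (2 * l + 3) → ℝ} (hf : ∀ i, Measurable (f i)) (hg : ∀ j, Measurable (g j))
    {C : ℝ} (hfC : ∀ i x, |f i x| ≤ C) (hgC : ∀ j x, |g j x| ≤ C) {B : ℝ}
    (hB : ∀ x ∈ Y, ∀ y ∈ Y, |∑ i, f i x * f i y - ∑ j, g j x * g j y| ≤
      B * |‖x - y‖ ^ 2 - 1| ^ (l + 2))
    {a κ m M : ℝ} (ha : 0 < a) (hm0 : 0 ≤ m) (hM0 : 0 ≤ M) {r : ℝ[X]} (hr : r.natDegree ≤ l)
    (hm : ∀ k : ℝ, Real.exp (-k ^ 2 / (4 * a)) ≤ κ * Phi (r.comp (X ^ 2)) k + m)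
    (hM : ∀ k : ℝ, κ * Phi (r.comp (X ^ 2)) k - M ≤ Real.exp (-k ^ 2 / (4 * a))) :
    ∫ x in Y, ∫ y in Y, G (2 * l + 3) a (y - x) * (∑ i, f i x * f i y - ∑ j, g j x * g j y) ≤
      m * (∫ x in Y, ∑ i, f i x ^ 2) + M * ∫ x in Y, ∑ j, g j x ^ 2 := by
  obtain ⟨h1, -, h2, -, h3⟩ := sGauss (2 * l + 3) a ha
  exact lp2 hY hb hf hg hfC hgC hB h1 h2 hm0 hM0 hr (fun ξ => by rw [h3]; exact hm _)
    (fun ξ => by rw [h3]; exact hM _)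

/-- two-sided bound, Gaussian test function. -/
theorem lpG2 {l : ℕ} {ι τ : Type} [Fintype ι] [Fintype τ] {Y : Set (E (2 * l + 3))}
    (hY : MeasurableSet Y) (hb : Bornology.IsBounded Y) {f : ι → E (2 * l + 3) → ℝ}
    {g : τ → E (2 * l + 3) → ℝ} (hf : ∀ i, Measurable (f i)) (hg : ∀ j, Measurable (g j))
    {C : ℝ} (hfC : ∀ i x, |f i x| ≤ C) (hgC : ∀ j x, |g j x| ≤ C) {B : ℝ}
    (hB : ∀ x ∈ Y, ∀ y ∈ Y, |∑ i, f i x * f i y - ∑ j, g j x * g j y| ≤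
      B * |‖x - y‖ ^ 2 - 1| ^ (l + 2))
    {a κ m : ℝ} (ha : 0 < a) {r : ℝ[X]} (hr : r.natDegree ≤ l)
    (hm : ∀ k : ℝ, |κ * Phi (r.comp (X ^ 2)) k - Real.exp (-k ^ 2 / (4 * a))| ≤ m) :
    |∫ x in Y, ∫ y in Y, G (2 * l + 3) a (y - x) * (∑ i, f i x * f i y - ∑ j, g j x * g j y)| ≤
      m * ((∫ x in Y, ∑ i, f i x ^ 2) + ∫ x in Y, ∑ j, g j x ^ 2) := by
  have hm0 : 0 ≤ m := (abs_nonneg _).trans (hm 0)
  have a1 : ∀ k : ℝ, Real.exp (-k ^ 2 / (4 * a)) ≤ κ * Phi (r.comp (X ^ 2)) k + m := fun k => by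
    linarith [(abs_le.1 (hm k)).1]
  have a2 : ∀ k : ℝ, κ * Phi (r.comp (X ^ 2)) k - m ≤ Real.exp (-k ^ 2 / (4 * a)) := fun k => by
    linarith [(abs_le.1 (hm k)).2]
  have h1 := lpG1 hY hb hf hg hfC hgC hB ha hm0 hm0 hr a1 a2
  have h2 := lpG1 hY hb hg hf hgC hfC (B := B)
    (fun x hx y hy => by rw [abs_sub_comm]; exact hB x hx y hy) ha hm0 hm0 hr a1 a2
  have e : ∫ x in Y, ∫ y in Y, G (2 * l + 3) a (y - x) *
      (∑ j, g j x * g j y - ∑ i, f i x * f i y) = -∫ x in Y, ∫ y in Y,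
        G (2 * l + 3) a (y - x) * (∑ i, f i x * f i y - ∑ j, g j x * g j y) := by
    rw [← integral_neg]
    refine integral_congr_ae (ae_of_all _ fun x => ?_)
    simp only []
    rw [← integral_neg]
    exact integral_congr_ae (ae_of_all _ fun y => by ring)
  rw [e] at h2
  exact abs_le.2 ⟨by linarith, by linarith⟩

end Pool.Agent.MP_66cee2_co.B2L
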