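import Pool.Agent.MP_66cee2_co.B.Spec

namespace Pool.Agent.MP_66cee2_co.B2L.H56

open MeasureTheory Set Polynomial Finset Pool.Agent.MP_66cee2_co.B
open scoped Nat

/-- the coefficients. -/
noncomputable def sc (l j : ℕ) : ℝ := (l.choose j : ℝ) * ((l + j).choose j : ℝ)

/-- the Legendre polynomial in the variable `(x - 1) / 2`. -/
noncomputable def S (l : ℕ) : ℝ[X] := ∑ j ∈ range (l + 1), monomial j (sc l j)

theorem sc_nonneg (l j : ℕ) : 0 ≤ sc l j := by unfold sc; positivity

theorem sc_zero (l : ℕ) : sc l 0 = 1 := by simp [sc]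

theorem sc_succ (l j : ℕ) : sc l (j + 1) * (j + 1) ^ 2 = (l - j) * (l + j + 1) * sc l j := by
  have h1 : (l.choose (j + 1) : ℝ) * (j + 1) = l.choose j * (l - j) := by
    rcases le_or_gt j l with h | h
    · have := Nat.choose_succ_right_eq l j
      rw [← Nat.cast_sub h]; exact_mod_cast this
    · rw [Nat.choose_eq_zero_of_lt h, Nat.choose_eq_zero_of_lt (by omega)]; simp
  have h2 : ((l + (j + 1)).choose (j + 1) : ℝ) * (j + 1) = (l + j + 1) * (l + j).choose j := by
    have := Nat.add_one_mul_choose_eq (l + j) j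
    rw [← add_assoc]; exact_mod_cast this.symm
  unfold sc
  linear_combination ((l + (j + 1)).choose (j + 1) : ℝ) * (j + 1) * h1 +
    (l.choose j : ℝ) * (l - j) * h2

theorem coeff_S (l j : ℕ) : (S l).coeff j = sc l j := by
  rw [S, finsetSum_coeff]
  simp only [coeff_monomial, Finset.sum_ite_eq', Finset.mem_range]
  split_ifs with h
  · rfl
  · rw [sc, Nat.choose_eq_zero_of_lt (by omega : l < j)]; simp

theorem natDegree_S (l : ℕ) : (S l).natDegree ≤ l :=
  natDegree_sum_le_of_forall_le _ _ fun _ hj =>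
    (natDegree_monomial_le _).trans (Nat.lt_succ_iff.1 (Finset.mem_range.1 hj))

theorem eval_S (l : ℕ) (z : ℝ) : (S l).eval z = ∑ j ∈ range (l + 1), sc l j * z ^ j := by
  simp [S, eval_finsetSum]

theorem coeff_XD (p : ℝ[X]) (j : ℕ) : (X * derivative p).coeff j = j * p.coeff j := by
  cases j with
  | zero => simp
  | succ j => rw [coeff_X_mul, coeff_derivative]; push_cast; ring

theorem ode0 (l : ℕ) : X * (1 + X) * derivative (derivative (S l)) +
    (1 + 2 * X) * derivative (S l) = C ((l : ℝ) * (l + 1)) * S l := by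
  have h : X * (1 + X) * derivative (derivative (S l)) + (1 + 2 * X) * derivative (S l) =
      X * derivative (derivative (S l)) + derivative (S l) +
        X * derivative (X * derivative (S l)) + X * derivative (S l) := by
    simp only [derivative_mul, derivative_X]; ring
  rw [h]
  ext j
  simp only [coeff_add, coeff_XD, coeff_derivative, coeff_C_mul, coeff_S]
  linear_combination sc_succ l j

theorem ode (l i : ℕ) : X * (1 + X) * derivative (derivative (derivative^[i] (S l))) +
    ((i : ℝ[X]) + 1) * (1 + 2 * X) * derivative (derivative^[i] (S l)) =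
    ((l : ℝ[X]) - (i : ℝ[X])) * ((l : ℝ[X]) + (i : ℝ[X]) + 1) * derivative^[i] (S l) := by
  induction i with
  | zero =>
    have := ode0 l
    simp only [map_mul, map_add, map_natCast, map_one] at this
    simp only [Function.iterate_zero, id, Nat.cast_zero]
    linear_combination this
  | succ i ih =>
    have := congrArg derivative ih
    simp only [derivative_mul, derivative_add, derivative_sub, derivative_X, derivative_one,
      derivative_natCast, derivative_ofNat] at this
    rw [Function.iterate_succ_apply']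
    push_cast
    linear_combination this

theorem coeff_h (l i j : ℕ) : ((1 + X) ^ i * derivative^[i] (S l)).coeff j * (i + j)! =
    sc l i * i ! * i ! * (sc l j * j !) := by
  induction i with
  | zero => simp [coeff_S, sc_zero]
  | succ i ih =>
    have h : ((i : ℝ[X]) + 1) * ((1 + X) ^ (i + 1) * derivative^[i + 1] (S l)) +
        X * derivative ((1 + X) ^ (i + 1) * derivative^[i + 1] (S l)) =
        ((l : ℝ[X]) - (i : ℝ[X])) * ((l : ℝ[X]) + (i : ℝ[X]) + 1) * ((1 + X) ^ i * derivative^[i] (S l)) := by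
      rw [Function.iterate_succ_apply', derivative_mul, derivative_pow_succ]
      simp only [derivative_one, derivative_X, map_add, map_natCast, map_one]
      linear_combination (1 + X) ^ i * ode l i
    have e1 : ((i : ℝ[X]) + 1) = C ((i : ℝ) + 1) := by simp
    have e2 : ((l : ℝ[X]) - (i : ℝ[X])) * ((l : ℝ[X]) + (i : ℝ[X]) + 1) = C (((l : ℝ) - i) * (l + i + 1)) := by simp
    have h' := congrArg (fun p : ℝ[X] => p.coeff j) h
    simp only [e1, e2, coeff_add, coeff_C_mul, coeff_XD] at h'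
    rw [show i + 1 + j = i + j + 1 by ring, Nat.factorial_succ, Nat.factorial_succ]
    push_cast
    linear_combination ((i + j)! : ℝ) * h' + ((l : ℝ) - i) * (l + i + 1) * ih -
      (i ! : ℝ) * i ! * (sc l j * j !) * sc_succ l i

/-- the Bessel coefficients. -/
noncomputable def cb (l j : ℕ) : ℝ := sc l j * j !

theorem two (l : ℕ) (x y : ℝ) : (S l).eval (y - x - x * y) =
    ∑ i ∈ range (l + 1), ∑ j ∈ range (l + 1),
      cb l i * cb l j * ((-x) ^ i * y ^ j / (i + j)!) := by
  have h1 : (S l).eval (y - x - x * y) = (taylor y (S l)).eval (-x * (1 + y)) := by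
    rw [taylor_eval]; congr 1; ring
  rw [h1, eval_eq_sum_range' (n := l + 1)
    (by rw [natDegree_taylor]; exact Nat.lt_succ_of_le (natDegree_S l))]
  refine Finset.sum_congr rfl fun i _ => ?_
  have hf : (i ! : ℝ) ≠ 0 := by positivity
  have h2 : (derivative^[i] (S l)).eval y = i ! * (hasseDeriv i (S l)).eval y := by
    rw [← factorial_smul_hasseDeriv]; simp
  have h3 : ((1 + X) ^ i * derivative^[i] (S l)) =
      ∑ j ∈ range (l + 1), monomial j (cb l i * i ! * cb l j / (i + j)!) := by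
    ext j
    have hg : ((i + j)! : ℝ) ≠ 0 := by positivity
    rw [finsetSum_coeff]
    simp only [coeff_monomial, Finset.sum_ite_eq', Finset.mem_range]
    have := coeff_h l i j
    split_ifs with h
    · rw [eq_div_iff hg, this, cb, cb]
    · rw [sc, sc, Nat.choose_eq_zero_of_lt (by omega : l < j)] at this
      simpa [hg] using this
  have h4 := congrArg (eval y) h3
  simp only [eval_mul, eval_pow, eval_add, eval_one, eval_X, h2, eval_finsetSum,
    eval_monomial] at h4
  rw [taylor_coeff, mul_pow]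
  refine mul_left_cancel₀ hf ?_
  rw [Finset.mul_sum]
  have h5 : (i ! : ℝ) * (eval y (hasseDeriv i (S l)) * ((-x) ^ i * (1 + y) ^ i)) =
      (-x) ^ i * ((1 + y) ^ i * (i ! * eval y (hasseDeriv i (S l)))) := by ring
  rw [h5, h4, Finset.mul_sum]
  exact Finset.sum_congr rfl fun j _ => by ring

theorem beta (u : ℝ) (b a : ℕ) : ∫ s in (0 : ℝ)..u, s ^ a / a ! * ((u - s) ^ b / b !) =
    u ^ (a + b + 1) / (a + b + 1)! := by
  induction b generalizing a with
  | zero =>
    simp only [pow_zero, Nat.factorial_zero, Nat.cast_one, div_one, mul_one, add_zero]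
    rw [intervalIntegral.integral_div, integral_pow, Nat.factorial_succ]
    have hf : (a ! : ℝ) ≠ 0 := by positivity
    push_cast
    field_simp
    ring
  | succ b ih =>
    have ha : (a ! : ℝ) ≠ 0 := by positivity
    have hb : (b ! : ℝ) ≠ 0 := by positivity
    have hd : ∀ s ∈ uIcc (0 : ℝ) u, HasDerivAt
        (fun s => s ^ (a + 1) / (a + 1)! * ((u - s) ^ (b + 1) / (b + 1)!))
        (s ^ a / a ! * ((u - s) ^ (b + 1) / (b + 1)!) -
          s ^ (a + 1) / (a + 1)! * ((u - s) ^ b / b !)) s := fun s _ => by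
      have h1 := (hasDerivAt_pow (a + 1) s).div_const ((a + 1)! : ℝ)
      have h2 := (((hasDerivAt_id s).const_sub u).fun_pow (b + 1)).div_const ((b + 1)! : ℝ)
      refine (h1.mul h2).congr_deriv ?_
      simp only [Nat.factorial_succ, id, Nat.add_sub_cancel]
      push_cast
      field_simp
      ring
    have h := intervalIntegral.integral_eq_sub_of_hasDerivAt hd
      (Continuous.intervalIntegrable (by fun_prop) _ _)
    rw [intervalIntegral.integral_sub (Continuous.intervalIntegrable (by fun_prop) _ _)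
      (Continuous.intervalIntegrable (by fun_prop) _ _), ih (a + 1)] at h
    simp only [sub_self, ne_eq, Nat.add_eq_zero_iff, one_ne_zero, and_false, not_false_eq_true,
      zero_pow, zero_div, mul_zero, zero_mul] at h
    rw [show a + (b + 1) + 1 = a + 1 + b + 1 by ring]
    linarith

theorem conv (l : ℕ) (α β γ δ u : ℝ) :
    ∫ s in (0 : ℝ)..u, (S l).eval (β * s - α * s - α * s * (β * s)) *
      (S l).eval (δ * (u - s) - γ * (u - s) - γ * (u - s) * (δ * (u - s))) =
    ∑ i ∈ range (l + 1), ∑ i' ∈ range (l + 1), ∑ j ∈ range (l + 1), ∑ j' ∈ range (l + 1),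
      cb l i * cb l j * (cb l i' * cb l j') * ((-α) ^ i * β ^ j * ((-γ) ^ i' * δ ^ j')) *
        (u ^ (i + j + (i' + j') + 1) / (i + j + (i' + j') + 1)!) := by
  simp only [two]
  simp only [Finset.sum_mul_sum]
  rw [intervalIntegral.integral_finsetSum fun _ _ =>
    Continuous.intervalIntegrable (by fun_prop) _ _]
  refine Finset.sum_congr rfl fun i _ => ?_
  rw [intervalIntegral.integral_finsetSum fun _ _ =>
    Continuous.intervalIntegrable (by fun_prop) _ _]
  refine Finset.sum_congr rfl fun i' _ => ?_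
  rw [intervalIntegral.integral_finsetSum fun _ _ =>
    Continuous.intervalIntegrable (by fun_prop) _ _]
  refine Finset.sum_congr rfl fun j _ => ?_
  rw [intervalIntegral.integral_finsetSum fun _ _ =>
    Continuous.intervalIntegrable (by fun_prop) _ _]
  refine Finset.sum_congr rfl fun j' _ => ?_
  rw [← beta, ← intervalIntegral.integral_const_mul]
  refine intervalIntegral.integral_congr fun s _ => ?_
  simp only [← neg_mul, mul_pow, pow_add]
  ring

theorem conv_swap (l : ℕ) (α β γ δ u : ℝ) :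
    ∫ s in (0 : ℝ)..u, (S l).eval (β * s - α * s - α * s * (β * s)) *
      (S l).eval (δ * (u - s) - γ * (u - s) - γ * (u - s) * (δ * (u - s))) =
    ∫ s in (0 : ℝ)..u, (S l).eval (δ * s - α * s - α * s * (δ * s)) *
      (S l).eval (β * (u - s) - γ * (u - s) - γ * (u - s) * (β * (u - s))) := by
  rw [conv, conv]
  refine Finset.sum_congr rfl fun i _ => Finset.sum_congr rfl fun i' _ => ?_
  rw [Finset.sum_comm]
  refine Finset.sum_congr rfl fun j _ => Finset.sum_congr rfl fun j' _ => ?_
  rw [show i + j' + (i' + j) = i + j + (i' + j') by ring]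
  ring

theorem S_neg_one (l : ℕ) : (S l).eval (-1) ^ 2 = 1 := by
  have h1 : ∀ w : ℝ, aeval w (shiftedLegendre l) = (S l).eval (-w) := fun w => by
    rw [eval_S, shiftedLegendre, map_sum]
    refine Finset.sum_congr rfl fun j _ => ?_
    rw [sc, Nat.choose_symm_add (a := l) (b := j), neg_pow w]
    simp
    ring
  have h2 := shiftedLegendre_eval_symm l (1 : ℝ)
  rw [h1, h1, sub_self, neg_zero, ← coeff_zero_eq_eval_zero, coeff_S, sc_zero] at h2
  rw [h2, mul_one, ← pow_mul, mul_comm, pow_mul]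
  simp

theorem S_bound (l : ℕ) {z : ℝ} (h1 : -1 ≤ z) (h0 : z ≤ 0) : |(S l).eval z| ≤ 1 := by
  rcases Nat.eq_zero_or_pos l with rfl | hl
  · simp [eval_S, sc_zero]
  set En : ℝ[X] := C ((l : ℝ) * (l + 1)) * S l ^ 2 - X * (1 + X) * derivative (S l) ^ 2 with hE
  have hd : derivative En = (1 + 2 * X) * derivative (S l) ^ 2 := by
    rw [hE]
    simp only [sq, derivative_mul, derivative_sub, derivative_add, derivative_C, derivative_X,
      derivative_one]
    linear_combination (-2 * derivative (S l)) * ode0 l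
  have hc : (0 : ℝ) < l * (l + 1) := by positivity
  have e0 : En.eval 0 = l * (l + 1) := by
    have : (S l).eval 0 = 1 := by rw [← coeff_zero_eq_eval_zero, coeff_S, sc_zero]
    simp [hE, this]
  have e1 : En.eval (-1) = l * (l + 1) := by simp [hE, S_neg_one]
  have hI : ∀ a b : ℝ, ∫ t in a..b, (1 + 2 * t) * (derivative (S l)).eval t ^ 2 =
      En.eval b - En.eval a := fun a b =>
    intervalIntegral.integral_eq_sub_of_hasDerivAt (f := fun t => En.eval t)
      (fun t _ => (En.hasDerivAt t).congr_deriv (by simp [hd]))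
      (Continuous.intervalIntegrable (by fun_prop) _ _)
  have hz : En.eval z ≤ l * (l + 1) := by
    rcases le_total z (-1 / 2) with h | h
    · have := intervalIntegral.integral_nonneg (μ := volume) h1
        (f := fun t => -((1 + 2 * t) * (derivative (S l)).eval t ^ 2)) fun t ht => by
          have := mul_nonneg (show 0 ≤ -(1 + 2 * t) by linarith [ht.2])
            (sq_nonneg ((derivative (S l)).eval t))
          linarith
      rw [intervalIntegral.integral_neg, hI, e1] at this
      linarith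
    · have := intervalIntegral.integral_nonneg (μ := volume) h0
        (f := fun t => (1 + 2 * t) * (derivative (S l)).eval t ^ 2) fun t ht =>
          mul_nonneg (by linarith [ht.1]) (sq_nonneg _)
      rw [hI, e0] at this
      linarith
  simp only [hE, eval_sub, eval_mul, eval_C, eval_pow, eval_X, eval_add, eval_one] at hz
  have h3 := mul_nonneg (mul_nonneg (neg_nonneg.2 h0) (show 0 ≤ 1 + z by linarith))
    (sq_nonneg ((derivative (S l)).eval z))
  exact abs_le_one_iff_mul_self_le_one.2 (le_of_mul_le_mul_left (by nlinarith) hc)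

/-- the profile. -/
noncomputable def Ga (l : ℕ) (v : ℝ) : ℝ := (S l).eval (1 / 8 - v ^ 2 / 2)

theorem Ga_cont (l : ℕ) : Continuous (Ga l) := by unfold Ga; fun_prop

theorem Ga_neg (l : ℕ) (v : ℝ) : Ga l (-v) = Ga l v := by simp [Ga]

theorem edge (l : ℕ) {u : ℝ} (h0 : 0 ≤ u) (h1 : u ≤ 1) :
    |∫ s in (0 : ℝ)..u, Ga l (1 / 2 + s) * Ga l (u - s - 1 / 2)| ≤ 1 := by
  have h := conv_swap l 1 (1 / 2) (1 / 2) 1 u
  have e : ∫ s in (0 : ℝ)..u, Ga l (1 / 2 + s) * Ga l (u - s - 1 / 2) =
      ∫ s in (0 : ℝ)..u, (S l).eval (1 / 2 * s - 1 * s - 1 * s * (1 / 2 * s)) *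
      (S l).eval (1 * (u - s) - 1 / 2 * (u - s) - 1 / 2 * (u - s) * (1 * (u - s))) := by
    refine intervalIntegral.integral_congr fun s _ => ?_
    simp only [Ga]
    rw [show 1 / 8 - (1 / 2 + s) ^ 2 / 2 = 1 / 2 * s - 1 * s - 1 * s * (1 / 2 * s) by ring,
      show 1 / 8 - (u - s - 1 / 2) ^ 2 / 2 =
        1 * (u - s) - 1 / 2 * (u - s) - 1 / 2 * (u - s) * (1 * (u - s)) by ring]
  rw [e, h, ← Real.norm_eq_abs]
  refine (intervalIntegral.norm_integral_le_of_norm_le_const (C := 1) fun s hs => ?_).trans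
    (by rw [sub_zero, abs_of_nonneg h0]; linarith)
  rw [uIoc_of_le h0] at hs
  rw [Real.norm_eq_abs, abs_mul]
  exact mul_le_one₀ (S_bound l (by nlinarith [hs.1, hs.2]) (by nlinarith [hs.1, hs.2]))
    (abs_nonneg _) (S_bound l (by nlinarith [hs.1, hs.2]) (by nlinarith [hs.1, hs.2]))

theorem tri (f : ℝ → ℝ → ℝ) (hf : Continuous (Function.uncurry f)) :
    ∫ s in (0 : ℝ)..1, ∫ u in s..1, f s u = ∫ u in (0 : ℝ)..1, ∫ s in (0 : ℝ)..u, f s u := by
  have hm : MeasurableSet {p : ℝ × ℝ | p.1 ≤ p.2} := measurableSet_le measurable_fst measurable_snd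
  have hi : Integrable (Function.uncurry fun s u => indicator {p : ℝ × ℝ | p.1 ≤ p.2}
      (Function.uncurry f) (s, u)) ((volume.restrict (Ioc (0 : ℝ) 1)).prod
      (volume.restrict (Ioc (0 : ℝ) 1))) := by
    refine Integrable.indicator ?_ hm
    rw [Measure.prod_restrict]
    exact (hf.continuousOn.integrableOn_compact (isCompact_Icc.prod isCompact_Icc)).mono_set
      (prod_mono Ioc_subset_Icc_self Ioc_subset_Icc_self)
  have h := integral_integral_swap hi
  rw [intervalIntegral.integral_of_le zero_le_one, intervalIntegral.integral_of_le zero_le_one]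
  refine (setIntegral_congr_fun measurableSet_Ioc fun s hs => ?_).trans
    (h.trans (setIntegral_congr_fun measurableSet_Ioc fun u hu => ?_))
  · have : (fun u => indicator {p : ℝ × ℝ | p.1 ≤ p.2} (Function.uncurry f) (s, u)) =
        indicator (Ici s) (f s) := by
      funext u; simp only [indicator, mem_ofPred_eq, Set.mem_Ici, Function.uncurry]
    rw [this, setIntegral_indicator measurableSet_Ici, intervalIntegral.integral_of_le hs.2,
      ← integral_Icc_eq_integral_Ioc]
    congr 2
    ext u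
    simp only [Set.mem_Icc, mem_inter_iff, Set.mem_Ioc, Set.mem_Ici]
    exact ⟨fun h => ⟨⟨hs.1.trans_le h.1, h.2⟩, h.1⟩, fun h => ⟨h.2, h.1.2⟩⟩
  · have : (fun s => indicator {p : ℝ × ℝ | p.1 ≤ p.2} (Function.uncurry f) (s, u)) =
        indicator (Iic u) (fun s => f s u) := by
      funext s; simp only [indicator, mem_ofPred_eq, Set.mem_Iic, Function.uncurry]
    rw [this, setIntegral_indicator measurableSet_Iic, intervalIntegral.integral_of_le hu.1.le]
    congr 2
    ext s
    simp only [mem_inter_iff, Set.mem_Ioc, Set.mem_Iic]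
    exact ⟨fun h => ⟨h.1.1, h.2⟩, fun h => ⟨⟨h.1, h.2.trans hu.2⟩, h.2⟩⟩

theorem Ga_nonneg (l : ℕ) {v : ℝ} (h : v ∈ Set.Icc (-1 / 2 : ℝ) (1 / 2)) : 0 ≤ Ga l v := by
  rw [Ga, eval_S]
  exact Finset.sum_nonneg fun j _ => mul_nonneg (sc_nonneg l j)
    (pow_nonneg (by nlinarith [h.1, h.2]) _)

theorem swap (f : ℝ → ℝ → ℝ) (hf : Continuous (Function.uncurry f)) {a b c d : ℝ} (h : a ≤ b)
    (h' : c ≤ d) : ∫ s in a..b, ∫ u in c..d, f s u = ∫ u in c..d, ∫ s in a..b, f s u := by
  simp only [intervalIntegral.integral_of_le h, intervalIntegral.integral_of_le h']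
  refine integral_integral_swap ?_
  rw [Measure.prod_restrict]
  exact (hf.continuousOn.integrableOn_compact (isCompact_Icc.prod isCompact_Icc)).mono_set
    (prod_mono Ioc_subset_Icc_self Ioc_subset_Icc_self)

theorem exists_r (l : ℕ) : ∃ r : ℝ[X], r.natDegree ≤ l ∧ ∀ u : ℝ,
    r.eval (u ^ 2) = ∫ v in (-1 / 2 : ℝ)..(1 / 2), Ga l v * Ga l (u - v) := by
  set Q : ℝ[X] := (S l).comp (C (1 / 8) - C (1 / 2) * X ^ 2) with hQ
  have hQd : Q.natDegree < 2 * l + 1 := by
    have h1 : (C (1 / 8) - C (1 / 2) * X ^ 2 : ℝ[X]).natDegree ≤ 2 := by compute_degree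
    have := natDegree_comp_le (p := S l) (q := (C (1 / 8) - C (1 / 2) * X ^ 2 : ℝ[X]))
    have h2 := Nat.mul_le_mul (natDegree_S l) h1
    rw [hQ]
    omega
  have hG : ∀ v, Ga l v = Q.eval v := fun v => by
    simp only [hQ, Ga, eval_comp, eval_sub, eval_mul, eval_C, eval_pow, eval_X]
    congr 1
    ring
  set a : ℕ → ℝ := fun n => ∫ v in (-1 / 2 : ℝ)..(1 / 2), Ga l v * (hasseDeriv n Q).eval (-v)
  have hc := Ga_cont l
  have hp : ∀ u : ℝ, ∫ v in (-1 / 2 : ℝ)..(1 / 2), Ga l v * Ga l (u - v) =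
      ∑ n ∈ range (2 * l + 1), a n * u ^ n := fun u => by
    have : ∀ v, Ga l v * Ga l (u - v) =
        ∑ n ∈ range (2 * l + 1), Ga l v * (hasseDeriv n Q).eval (-v) * u ^ n := fun v => by
      rw [hG (u - v), sub_eq_add_neg, ← taylor_eval,
        eval_eq_sum_range' (n := 2 * l + 1) (by rwa [natDegree_taylor]), Finset.mul_sum]
      exact Finset.sum_congr rfl fun n _ => by rw [taylor_coeff, mul_assoc]
    simp only [this]
    rw [intervalIntegral.integral_finsetSum fun _ _ =>
      Continuous.intervalIntegrable (by fun_prop) _ _]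
    exact Finset.sum_congr rfl fun n _ => intervalIntegral.integral_mul_const _ _
  have hev : ∀ u : ℝ, ∫ v in (-1 / 2 : ℝ)..(1 / 2), Ga l v * Ga l (-u - v) =
      ∫ v in (-1 / 2 : ℝ)..(1 / 2), Ga l v * Ga l (u - v) := fun u => by
    have := intervalIntegral.integral_comp_neg (a := -1 / 2) (b := 1 / 2)
      (fun v => Ga l v * Ga l (u - v))
    rw [show -(1 / 2 : ℝ) = -1 / 2 by ring, show -(-1 / 2 : ℝ) = 1 / 2 by ring] at this
    rw [← this]
    refine intervalIntegral.integral_congr fun v _ => ?_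
    simp only [Ga_neg]
    rw [← Ga_neg l (-u - v), show -(-u - v) = u - -v by ring]
  refine ⟨∑ n ∈ range (2 * l + 1), monomial (n / 2) (if Even n then a n else 0), ?_, fun u => ?_⟩
  · exact natDegree_sum_le_of_forall_le _ _ fun n hn => (natDegree_monomial_le _).trans (by
      have := Finset.mem_range.1 hn
      omega)
  · have h1 := hp u
    have h2 := (hev u).symm.trans (hp (-u))
    have h3 : 2 * eval (u ^ 2) (∑ n ∈ range (2 * l + 1),
        monomial (n / 2) (if Even n then a n else 0)) =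
        ∑ n ∈ range (2 * l + 1), a n * u ^ n + ∑ n ∈ range (2 * l + 1), a n * (-u) ^ n := by
      rw [eval_finsetSum, Finset.mul_sum, ← Finset.sum_add_distrib]
      refine Finset.sum_congr rfl fun n _ => ?_
      rw [eval_monomial]
      rcases Nat.even_or_odd n with h | h
      · rw [if_pos h, h.neg_pow, ← pow_mul, Nat.two_mul_div_two_of_even h]; ring
      · rw [if_neg (Nat.not_even_iff_odd.2 h), h.neg_pow]; ring
    linarith

theorem sin_zero' (l : ℕ) (k : ℝ) :
    ∫ v in (-1 / 2 : ℝ)..(1 / 2), Real.sin (k * v) * Ga l v = 0 := by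
  have := intervalIntegral.integral_comp_neg (a := -1 / 2) (b := 1 / 2)
    (fun v => Real.sin (k * v) * Ga l v)
  rw [show -(1 / 2 : ℝ) = -1 / 2 by ring, show -(-1 / 2 : ℝ) = 1 / 2 by ring] at this
  simp only [mul_neg, Real.sin_neg, Ga_neg, neg_mul, intervalIntegral.integral_neg] at this
  linarith

theorem side (l : ℕ) (k : ℝ) : |∫ v in (-1 / 2 : ℝ)..(1 / 2), ∫ u in (v + 1 / 2)..1,
    Real.cos (k * u) * (Ga l v * Ga l (u - v))| ≤ 1 := by
  have hc := Ga_cont l
  have h1 := intervalIntegral.integral_comp_sub_right (a := 0) (b := 1)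
    (fun v => ∫ u in (v + 1 / 2)..1, Real.cos (k * u) * (Ga l v * Ga l (u - v))) (1 / 2)
  rw [show (0 : ℝ) - 1 / 2 = -1 / 2 by ring, show (1 : ℝ) - 1 / 2 = 1 / 2 by ring] at h1
  rw [← h1]
  simp only [sub_add_cancel]
  rw [tri (fun s u => Real.cos (k * u) * (Ga l (s - 1 / 2) * Ga l (u - (s - 1 / 2))))
    (by unfold Function.uncurry; fun_prop), ← Real.norm_eq_abs]
  refine (intervalIntegral.norm_integral_le_of_norm_le_const (C := 1) fun u hu => ?_).trans
    (by simp)
  rw [uIoc_of_le zero_le_one] at hu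
  have h2 := intervalIntegral.integral_comp_sub_left (a := 0) (b := u)
    (fun s => Ga l (1 / 2 + s) * Ga l (u - s - 1 / 2)) u
  rw [sub_self, sub_zero] at h2
  have h3 : ∫ s in (0 : ℝ)..u, Ga l (s - 1 / 2) * Ga l (u - (s - 1 / 2)) =
      ∫ s in (0 : ℝ)..u, Ga l (1 / 2 + s) * Ga l (u - s - 1 / 2) := by
    rw [← h2]
    refine intervalIntegral.integral_congr fun s _ => ?_
    rw [mul_comm, show u - (s - 1 / 2) = 1 / 2 + (u - s) by ring,
      show u - (u - s) - 1 / 2 = s - 1 / 2 by ring]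
  rw [intervalIntegral.integral_const_mul, h3, Real.norm_eq_abs, abs_mul]
  exact mul_le_one₀ (Real.abs_cos_le_one _) (abs_nonneg _) (edge l hu.1.le hu.2)

theorem four (l : ℕ) (r : ℝ[X])
    (hr : ∀ u : ℝ, r.eval (u ^ 2) = ∫ v in (-1 / 2 : ℝ)..(1 / 2), Ga l v * Ga l (u - v)) (k : ℝ) :
    |Phi (r.comp (X ^ 2)) k -
      (∫ v in (-1 / 2 : ℝ)..(1 / 2), Real.cos (k * v) * Ga l v) ^ 2| ≤ 2 := by
  have hc := Ga_cont l
  set F : ℝ → ℝ → ℝ := fun v u => Real.cos (k * u) * (Ga l v * Ga l (u - v)) with hF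
  have cF : Continuous (Function.uncurry F) := by rw [hF]; unfold Function.uncurry; fun_prop
  have cv : ∀ v, Continuous (F v) := fun v => by rw [hF]; fun_prop
  have h1 : Phi (r.comp (X ^ 2)) k = ∫ v in (-1 / 2 : ℝ)..(1 / 2), ∫ u in (-1 : ℝ)..1, F v u := by
    rw [swap F cF (by norm_num) (by norm_num), Phi]
    refine intervalIntegral.integral_congr fun u _ => ?_
    simp only [hF, eval_comp, eval_pow, eval_X, hr, intervalIntegral.integral_const_mul]
  have h2 : ∀ v, ∫ u in (v - 1 / 2)..(v + 1 / 2), F v u = Real.cos (k * v) * Ga l v *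
      ∫ w in (-1 / 2 : ℝ)..(1 / 2), Real.cos (k * w) * Ga l w := fun v => by
    have := intervalIntegral.integral_comp_add_right (a := -1 / 2) (b := 1 / 2) (F v) v
    rw [show -1 / 2 + v = v - 1 / 2 by ring, show 1 / 2 + v = v + 1 / 2 by ring] at this
    have e : ∀ w, F v (w + v) = Real.cos (k * v) * Ga l v * (Real.cos (k * w) * Ga l w) -
        Real.sin (k * v) * Ga l v * (Real.sin (k * w) * Ga l w) := fun w => by
      simp only [hF, add_sub_cancel_right, mul_add, Real.cos_add]; ring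
    rw [← this]
    simp only [e]
    rw [intervalIntegral.integral_sub (Continuous.intervalIntegrable (by fun_prop) _ _)
      (Continuous.intervalIntegrable (by fun_prop) _ _), intervalIntegral.integral_const_mul,
      intervalIntegral.integral_const_mul, sin_zero', mul_zero, sub_zero]
  have c0 : Continuous fun v => ∫ u in (-1 : ℝ)..1, F v u :=
    intervalIntegral.continuous_parametric_intervalIntegral_of_continuous' cF _ _
  have c1 : Continuous fun v => ∫ u in (-1 : ℝ)..(v - 1 / 2), F v u :=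
    intervalIntegral.continuous_parametric_intervalIntegral_of_continuous cF (by fun_prop)
  have c2 : Continuous fun v => Real.cos (k * v) * Ga l v *
      ∫ w in (-1 / 2 : ℝ)..(1 / 2), Real.cos (k * w) * Ga l w := by fun_prop
  have h3 : ∀ v, ∫ u in (v + 1 / 2)..1, F v u = (∫ u in (-1 : ℝ)..1, F v u) -
      (∫ u in (-1 : ℝ)..(v - 1 / 2), F v u) - Real.cos (k * v) * Ga l v *
      ∫ w in (-1 / 2 : ℝ)..(1 / 2), Real.cos (k * w) * Ga l w := fun v => by
    rw [← h2, ← intervalIntegral.integral_add_adjacent_intervals (a := -1) (b := v - 1 / 2) (c := 1)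
      ((cv v).intervalIntegrable _ _) ((cv v).intervalIntegrable _ _),
      ← intervalIntegral.integral_add_adjacent_intervals (a := v - 1 / 2) (b := v + 1 / 2) (c := 1)
      ((cv v).intervalIntegrable _ _) ((cv v).intervalIntegrable _ _)]
    ring
  have h4 : ∫ v in (-1 / 2 : ℝ)..(1 / 2), ∫ u in (-1 : ℝ)..(v - 1 / 2), F v u =
      ∫ v in (-1 / 2 : ℝ)..(1 / 2), ∫ u in (v + 1 / 2)..1, F v u := by
    have := intervalIntegral.integral_comp_neg (a := -1 / 2) (b := 1 / 2)
      (fun v => ∫ u in (v + 1 / 2)..1, F v u)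
    rw [show -(1 / 2 : ℝ) = -1 / 2 by ring, show -(-1 / 2 : ℝ) = 1 / 2 by ring] at this
    rw [← this]
    refine intervalIntegral.integral_congr fun v _ => ?_
    have h5 := intervalIntegral.integral_comp_neg (a := -1) (b := v - 1 / 2) (F (-v))
    rw [neg_neg, show -(v - 1 / 2) = -v + 1 / 2 by ring] at h5
    rw [← h5]
    refine intervalIntegral.integral_congr fun u _ => ?_
    simp only [hF, mul_neg, Real.cos_neg, Ga_neg]
    rw [← Ga_neg l (u - v), show -(u - v) = -u - -v by ring]
  have h6 := side l k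
  have h7 : ∫ v in (-1 / 2 : ℝ)..(1 / 2), ∫ u in (v + 1 / 2)..1, F v u =
      Phi (r.comp (X ^ 2)) k - (∫ v in (-1 / 2 : ℝ)..(1 / 2), ∫ u in (v + 1 / 2)..1, F v u) -
      (∫ v in (-1 / 2 : ℝ)..(1 / 2), Real.cos (k * v) * Ga l v) ^ 2 := by
    conv_lhs => simp only [h3]
    rw [intervalIntegral.integral_sub ((c0.fun_sub c1).intervalIntegrable _ _)
      (c2.intervalIntegrable _ _), intervalIntegral.integral_sub (c0.intervalIntegrable _ _)
      (c1.intervalIntegrable _ _), intervalIntegral.integral_mul_const, h4, h1, sq]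
  change |∫ v in (-1 / 2 : ℝ)..(1 / 2), ∫ u in (v + 1 / 2)..1, F v u| ≤ 1 at h6
  rw [abs_le] at h6 ⊢
  constructor <;> linarith [h6.1, h6.2]

theorem sc_lower (l : ℕ) : (64 : ℝ) ^ (l / 3) ≤ (4 * (l / 3 : ℕ) + 1) * (2 * (l / 3 : ℕ) + 1) *
    sc l (l / 3) := by
  set m := l / 3 with hm
  have h1 : (3 * m).choose m ≤ l.choose m := Nat.choose_le_choose _ (by omega)
  have h2 : (4 * m).choose m ≤ (l + m).choose m := Nat.choose_le_choose _ (by omega)
  have h3 := Nat.four_pow_le_two_mul_add_one_mul_central_binom m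
  have h4 := Nat.four_pow_le_two_mul_add_one_mul_central_binom (2 * m)
  have h5 : (4 * m).choose (2 * m) * (2 * m).choose m = (4 * m).choose m * (3 * m).choose m := by
    have := Nat.choose_mul (n := 4 * m) (k := 2 * m) (s := m) (by omega)
    rwa [show 4 * m - m = 3 * m by omega, show 2 * m - m = m by omega] at this
  rw [show 2 * (2 * m) = 4 * m by ring] at h4
  have h6 : 64 ^ m ≤ (4 * m + 1) * (2 * m + 1) * (l.choose m * (l + m).choose m) :=
    calc 64 ^ m = 4 ^ (2 * m) * 4 ^ m := by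
          rw [← pow_add, show 2 * m + m = 3 * m by ring, pow_mul]; norm_num
      _ ≤ ((4 * m + 1) * (4 * m).choose (2 * m)) * ((2 * m + 1) * (2 * m).choose m) :=
          Nat.mul_le_mul h4 h3
      _ = (4 * m + 1) * (2 * m + 1) * ((3 * m).choose m * (4 * m).choose m) := by
          rw [mul_comm ((3 * m).choose m), ← h5]; ring
      _ ≤ _ := Nat.mul_le_mul_left _ (Nat.mul_le_mul h1 h2)
  unfold sc
  exact_mod_cast h6

theorem mass (l : ℕ) : (2 : ℝ) ^ l ≤ 16 * (l + 1) ^ 3 * ∫ v in (-1 / 2 : ℝ)..(1 / 2), Ga l v := by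
  have hs := sc_lower l
  set m := l / 3 with hm
  have hc := Ga_cont l
  have h1 : ∫ v in (0 : ℝ)..(1 / 2), Ga l v ≤ ∫ v in (-1 / 2 : ℝ)..(1 / 2), Ga l v := by
    rw [← intervalIntegral.integral_add_adjacent_intervals (a := -1 / 2) (b := 0)
      (hc.intervalIntegrable _ _) (hc.intervalIntegrable _ _)]
    have := intervalIntegral.integral_nonneg (μ := volume) (a := -1 / 2) (b := 0) (by norm_num)
      (f := Ga l) fun v hv => Ga_nonneg l ⟨hv.1, by linarith [hv.2]⟩
    linarith
  have h2 : ∫ v in (0 : ℝ)..(1 / 2), sc l m / 4 ^ m * (1 / 2 - v) ^ m ≤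
      ∫ v in (0 : ℝ)..(1 / 2), Ga l v := by
    refine intervalIntegral.integral_mono_on (by norm_num)
      (Continuous.intervalIntegrable (by fun_prop) _ _) (hc.intervalIntegrable _ _) fun v hv => ?_
    rw [Ga, eval_S]
    refine le_trans ?_ (Finset.single_le_sum (f := fun j => sc l j * (1 / 8 - v ^ 2 / 2) ^ j)
      (fun j _ => mul_nonneg (sc_nonneg l j) (pow_nonneg (by nlinarith [hv.1, hv.2]) _))
      (Finset.mem_range.2 (by omega : m < l + 1)))
    rw [div_mul_eq_mul_div, mul_div_assoc, ← div_pow]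
    exact mul_le_mul_of_nonneg_left (pow_le_pow_left₀ (by linarith [hv.2])
      (by nlinarith [hv.1, hv.2]) _) (sc_nonneg l m)
  rw [intervalIntegral.integral_const_mul, intervalIntegral.integral_comp_sub_left
    (fun x : ℝ => x ^ m), integral_pow] at h2
  have h3 : sc l m / 4 ^ m * (((1 / 2 - 0 : ℝ) ^ (m + 1) - (1 / 2 - 1 / 2) ^ (m + 1)) / (m + 1)) =
      sc l m / (8 ^ m * (2 * (m + 1))) := by
    rw [sub_self, zero_pow (Nat.succ_ne_zero m), sub_zero, sub_zero,
      show (8 : ℝ) ^ m = 4 ^ m * 2 ^ m by rw [← mul_pow]; norm_num, one_div, inv_pow, pow_succ]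
    field_simp
  rw [h3, div_le_iff₀ (by positivity)] at h2
  set I := ∫ v in (-1 / 2 : ℝ)..(1 / 2), Ga l v
  have hI : 0 ≤ I := intervalIntegral.integral_nonneg (by norm_num) fun v hv => Ga_nonneg l hv
  have h4 : (2 : ℝ) ^ l ≤ 4 * 8 ^ m := by
    rw [show (4 : ℝ) * 8 ^ m = 2 ^ (2 + 3 * m) by rw [pow_add, pow_mul]; norm_num]
    exact pow_le_pow_right₀ one_le_two (by omega)
  have hml : (3 : ℝ) * m ≤ l := by exact_mod_cast (by omega : 3 * m ≤ l)
  have hm0 : (0 : ℝ) ≤ m := Nat.cast_nonneg m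
  have h5 : (8 : ℝ) ^ m * 8 ^ m ≤ 8 ^ m * ((4 * m + 1) * (2 * m + 1) * (2 * (m + 1)) * I) := by
    rw [← mul_pow, show (8 : ℝ) * 8 = 64 by norm_num]
    refine hs.trans ?_
    have := mul_le_mul_of_nonneg_left (h2.trans (mul_le_mul_of_nonneg_right h1 (by positivity)))
      (show (0 : ℝ) ≤ (4 * m + 1) * (2 * m + 1) by positivity)
    linarith
  have h6 := le_of_mul_le_mul_left h5 (by positivity)
  have h7 : (4 * m + 1 : ℝ) * (2 * m + 1) * (2 * (m + 1)) ≤ (2 * (l + 1)) * (l + 1) * (2 * (l + 1)) :=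
    mul_le_mul (mul_le_mul (by linarith) (by linarith) (by positivity) (by positivity))
      (by linarith) (by positivity) (by positivity)
  have h8 := mul_le_mul_of_nonneg_right h7 hI
  nlinarith

/-- The certificate. -/
theorem cert (l : ℕ) : ∃ (g : ℝ → ℝ) (r : ℝ[X]), r.natDegree ≤ l ∧ Continuous g ∧
    (∀ v, g (-v) = g v) ∧ (∀ v ∈ Set.Icc (-1 / 2 : ℝ) (1 / 2), 0 ≤ g v) ∧
    (2 : ℝ) ^ l ≤ 16 * (l + 1) ^ 3 * ∫ v in (-1 / 2 : ℝ)..(1 / 2), g v ∧
    ∀ k : ℝ, |Phi (r.comp (X ^ 2)) k -
      (∫ v in (-1 / 2 : ℝ)..(1 / 2), Real.cos (k * v) * g v) ^ 2| ≤ 2 := by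
  obtain ⟨r, h1, h2⟩ := exists_r l
  exact ⟨Ga l, r, h1, Ga_cont l, Ga_neg l, fun _ h => Ga_nonneg l h, mass l, four l r h2⟩

end Pool.Agent.MP_66cee2_co.B2L.H56
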